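import Pool.Agent.H84.Med

namespace Pool.Agent.Results.MP_817dae_lc.NoSel

open Pool.Agent.H84.MedDefs

theorem result
    (h : (∃ U : Ultrafilter ℕ, Selective U) ∨ Cardinal.continuum.{0} = Cardinal.aleph 1) :
    ∃ I, IsMaximal I ∧ ¬ ∃ E, IsClosed E ∧ MED I E :=
  (h.elim id Pool.Agent.H84.Med.of_ch).elim fun _ r =>
    ⟨_, Pool.Agent.H84.Med.maximal r.1, fun ⟨_, a, b⟩ => Pool.Agent.H84.Med.no_med r a b⟩

end Pool.Agent.Results.MP_817dae_lc.NoSel
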